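import Mathlib

/-!
# The mini-max ratio for self-adjoint Toeplitz matrices

`c_N > π/2` for every `N ≥ 2`.

Proof. If `A = (a_{j-k})` has size `N + 1` and `r < m`, the Toeplitz matrix of size `m N + r + 1`
with entries `a_n` at `m n` and `0` elsewhere is a direct sum of copies of `A` and of compressions
of `A`, so its norm is at most `‖A‖`; and a dual trigonometric polynomial `q(θ)` of `A` gives the dual
polynomial `q(m θ)`, so its minimal symbol norm is at least that of `A`. Every `M ≥ 2`, `M ≠ 3` is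
`2 m + r` with `r < m`. So one needs an example for `N = 2` (the sign of
`(cos θ - cos θ₁)(cos θ - cos θ₂)`, `θ₁ = π/5 + γ`, `θ₂ = 4π/5 + γ`, `sin γ = 2/5`) and for `N = 3`
(the sign of `cos θ (cos² θ - 24/25)`).
-/

set_option autoImplicit false

open MeasureTheory AddCircle Real Finset
open scoped Matrix.Norms.L2Operator ENNReal

namespace Pool.Agent.Results.MP_becf51_an.MiniMaxRatio

instance instTwoPiPos : Fact (0 < 2 * π) := ⟨Real.two_pi_pos⟩

/-- The Toeplitz matrix `(a_{j-k})`, `0 ≤ j, k ≤ N`. -/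
def toep (N : ℕ) (a : ℤ → ℂ) : Matrix (Fin (N + 1)) (Fin (N + 1)) ℂ :=
  Matrix.of fun j k => a ((j : ℤ) - (k : ℤ))

/-- The bounded symbols: essentially bounded functions on the circle whose Fourier coefficients
are `a_n` for `-N ≤ n ≤ N`. -/
def symbols (N : ℕ) (a : ℤ → ℂ) : Set (AddCircle (2 * π) → ℂ) :=
  {f | MemLp f ⊤ haarAddCircle ∧ ∀ n : ℤ, |n| ≤ N → fourierCoeff f n = a n}

/-- The essential supremum norm. -/
noncomputable def supNorm (f : AddCircle (2 * π) → ℂ) : ℝ := (eLpNorm f ⊤ haarAddCircle).toReal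

/-- The minimal norm `c_A` of a bounded symbol of the Toeplitz matrix `A` given by `a`. -/
noncomputable def cA (N : ℕ) (a : ℤ → ℂ) : ℝ := sInf (supNorm '' symbols N a)

/-- The mini-max ratio `c_N`: the supremum of `c_A/‖A‖` over all non-zero self-adjoint Toeplitz
matrices of size `N + 1`. -/
noncomputable def c (N : ℕ) : ℝ :=
  sSup {r | ∃ a : ℤ → ℂ, (∀ n, a (-n) = starRingEnd ℂ (a n)) ∧ toep N a ≠ 0 ∧
    r = cA N a / ‖toep N a‖}

section Dual

/-- the cosine polynomial with coefficients `κ` in the variable `m θ` -/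
noncomputable def Q (κ : ℕ → ℝ) (N : ℕ) (m : ℤ) (t : AddCircle (2 * π)) : ℂ :=
  ∑ n ∈ range (N + 1), (κ n : ℂ) * ((fourier (m * n) t + fourier (-(m * n)) t) / 2)

lemma continuous_Q (κ : ℕ → ℝ) (N : ℕ) (m : ℤ) : Continuous (Q κ N m) := by
  unfold Q
  refine continuous_finsetSum _ fun n _ => continuous_const.mul ?_
  exact ((fourier (m * n)).continuous.add (fourier (-(m * n))).continuous).div_const _

lemma Q_comp (κ : ℕ → ℝ) (N : ℕ) (m : ℤ) (t : AddCircle (2 * π)) :
    Q κ N m t = Q κ N 1 (m • t) := by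
  unfold Q
  refine sum_congr rfl fun n _ => ?_
  have h : ∀ k : ℤ, fourier (m * k) t = fourier (1 * k) (m • t) := by
    intro k
    have e : (m * k) • t = (1 * k) • (m • t) := by rw [one_mul, smul_smul, mul_comm m k]
    rw [fourier_apply, fourier_apply, e]
  have h1 := h n
  have h2 := h (-n)
  rw [mul_neg, mul_neg] at h2
  rw [h1, h2]

lemma Q_coe (κ : ℕ → ℝ) (N : ℕ) (θ : ℝ) :
    Q κ N 1 (θ : AddCircle (2 * π)) = ((∑ n ∈ range (N + 1), κ n * cos (n * θ) : ℝ) : ℂ) := by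
  unfold Q
  push_cast
  refine sum_congr rfl fun n _ => ?_
  rw [fourier_coe_apply, fourier_coe_apply, Complex.cos]
  have hpi : (π : ℂ) ≠ 0 := by exact_mod_cast Real.pi_ne_zero
  congr 3
  · congr 1
    push_cast
    field_simp
  · congr 1
    push_cast
    field_simp

lemma integral_norm_Q (κ : ℕ → ℝ) (N : ℕ) {m : ℤ} (hm : m ≠ 0) :
    ∫ t, ‖Q κ N m t‖ ∂haarAddCircle =
      (1 / π) * ∫ θ in (0 : ℝ)..π, |∑ n ∈ range (N + 1), κ n * cos (n * θ)| := by
  have h1 : ∫ t, ‖Q κ N m t‖ ∂haarAddCircle = ∫ t, ‖Q κ N 1 t‖ ∂haarAddCircle := by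
    have hmp : MeasurePreserving (fun t : AddCircle (2 * π) => m • t) haarAddCircle
      haarAddCircle := MeasureTheory.Measure.measurePreserving_zsmul _ hm
    have h2 : ∫ t, ‖Q κ N 1 t‖ ∂haarAddCircle =
        ∫ t, ‖Q κ N 1 t‖ ∂(Measure.map (fun t : AddCircle (2 * π) => m • t) haarAddCircle) := by
      rw [hmp.map_eq]
    rw [h2, integral_map hmp.aemeasurable (continuous_Q κ N 1).norm.aestronglyMeasurable]
    exact integral_congr_ae (Filter.Eventually.of_forall fun t => by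
      show ‖Q κ N m t‖ = ‖Q κ N 1 (m • t)‖
      rw [Q_comp])
  rw [h1, integral_haarAddCircle, ← AddCircle.intervalIntegral_preimage (2 * π) (-π)]
  set S : ℝ → ℝ := fun θ => |∑ n ∈ range (N + 1), κ n * cos (n * θ)| with hS
  have h3 : ∀ θ : ℝ, ‖Q κ N 1 (θ : AddCircle (2 * π))‖ = S θ := by
    intro θ
    rw [Q_coe, Complex.norm_real, Real.norm_eq_abs]
  have hcont : Continuous S := by
    refine (continuous_finsetSum _ fun n _ => ?_).abs
    exact continuous_const.mul (continuous_cos.comp (continuous_const.mul continuous_id))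
  simp_rw [h3]
  have h4 : -π + 2 * π = π := by ring
  rw [h4, ← intervalIntegral.integral_add_adjacent_intervals (b := 0)
    (hcont.intervalIntegrable _ _) (hcont.intervalIntegrable _ _)]
  have h5 : ∫ θ in (-π)..0, S θ = ∫ θ in (0 : ℝ)..π, S θ := by
    have h6 : ∫ θ in (0 : ℝ)..π, S (-θ) = ∫ θ in (-π)..(-0), S θ :=
      intervalIntegral.integral_comp_neg _
    rw [neg_zero] at h6
    rw [← h6]
    refine intervalIntegral.integral_congr fun θ _ => ?_
    simp only [hS, mul_neg, cos_neg]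
  rw [h5, smul_eq_mul]
  field_simp
  ring

lemma integrable_of_memLp {f : AddCircle (2 * π) → ℂ} (hf : MemLp f ⊤ haarAddCircle) :
    Integrable f haarAddCircle := hf.integrable le_top

lemma integral_Q_mul (κ : ℕ → ℝ) (N : ℕ) (m : ℤ) {f : AddCircle (2 * π) → ℂ}
    (hf : Integrable f haarAddCircle) :
    ∫ t, Q κ N m t * f t ∂haarAddCircle =
      ∑ n ∈ range (N + 1), (κ n : ℂ) * ((fourierCoeff f (-(m * n)) + fourierCoeff f (m * n)) / 2) := by
  unfold Q
  have hint : ∀ k : ℤ, Integrable (fun t => fourier k t * f t) haarAddCircle := fun k => by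
    simpa [smul_eq_mul] using hf.fourier_smul k
  simp_rw [sum_mul]
  rw [integral_finsetSum]
  · refine sum_congr rfl fun n _ => ?_
    have h1 : ∀ t, (κ n : ℂ) * ((fourier (m * n) t + fourier (-(m * n)) t) / 2) * f t =
        (κ n : ℂ) / 2 * (fourier (m * n) t * f t + fourier (-(m * n)) t * f t) := fun t => by ring
    simp_rw [h1]
    rw [integral_const_mul, integral_add (hint _) (hint _)]
    unfold fourierCoeff
    simp only [smul_eq_mul, neg_neg]
    ring
  · intro n _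
    have h1 : (fun t => (κ n : ℂ) * ((fourier (m * n) t + fourier (-(m * n)) t) / 2) * f t) =
        fun t => (κ n : ℂ) / 2 * (fourier (m * n) t * f t + fourier (-(m * n)) t * f t) := by
      funext t
      ring
    rw [h1]
    exact ((hint _).add (hint _)).const_mul _

/-- the duality bound -/
lemma one_le_supNorm {κ : ℕ → ℝ} {N : ℕ} {m : ℤ} (hm : m ≠ 0) {a : ℤ → ℂ} {b : ℕ → ℝ}
    (hb : ∀ n ∈ range (N + 1), a (m * n) = b n ∧ a (-(m * n)) = b n)
    (hI : (1 / π) * ∫ θ in (0 : ℝ)..π, |∑ n ∈ range (N + 1), κ n * cos (n * θ)| =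
      ∑ n ∈ range (N + 1), κ n * b n)
    (hpos : 0 < ∑ n ∈ range (N + 1), κ n * b n) {f : AddCircle (2 * π) → ℂ}
    (hf : MemLp f ⊤ haarAddCircle)
    (hcoef : ∀ n ∈ range (N + 1), fourierCoeff f (m * n) = a (m * n) ∧
      fourierCoeff f (-(m * n)) = a (-(m * n))) : 1 ≤ supNorm f := by
  have h1 := integral_Q_mul κ N m (integrable_of_memLp hf)
  have h2 : ∑ n ∈ range (N + 1), (κ n : ℂ) *
      ((fourierCoeff f (-(m * n)) + fourierCoeff f (m * n)) / 2) =
      ((∑ n ∈ range (N + 1), κ n * b n : ℝ) : ℂ) := by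
    push_cast
    refine sum_congr rfl fun n hn => ?_
    rw [(hcoef n hn).1, (hcoef n hn).2, (hb n hn).1, (hb n hn).2]
    ring
  rw [h2] at h1
  have h3 : ‖∫ t, Q κ N m t * f t ∂haarAddCircle‖ ≤
      supNorm f * ∫ t, ‖Q κ N m t‖ ∂haarAddCircle := by
    rw [← integral_const_mul]
    have hQint : Integrable (fun t => ‖Q κ N m t‖) (haarAddCircle : Measure (AddCircle (2 * π))) :=
      (continuous_Q κ N m).norm.integrable_of_hasCompactSupport
        (HasCompactSupport.of_compactSpace _)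
    refine norm_integral_le_of_norm_le (hQint.const_mul _) ?_
    have hess : ∀ᵐ t ∂haarAddCircle, ‖f t‖ ≤ supNorm f := by
      have h4 := ae_le_eLpNormEssSup (f := f) (μ := (haarAddCircle : Measure (AddCircle (2 * π))))
      filter_upwards [h4] with t ht
      have h5 : eLpNormEssSup f haarAddCircle ≠ ⊤ := by
        have := hf.2
        rw [eLpNorm_exponent_top] at this
        exact this.ne
      unfold supNorm
      rw [eLpNorm_exponent_top]
      have := ENNReal.toReal_mono h5 ht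
      simpa using this
    filter_upwards [hess] with t ht
    rw [norm_mul, mul_comm]
    exact mul_le_mul_of_nonneg_right ht (norm_nonneg _)
  rw [h1, integral_norm_Q κ N hm, hI, Complex.norm_real, Real.norm_eq_abs, abs_of_pos hpos] at h3
  exact (le_mul_iff_one_le_left hpos).1 h3

end Dual

section Norm

lemma sum_block {E : Type*} [AddCommMonoid E] (m n : ℕ) (f : ℕ → E) :
    ∑ j ∈ range (n * m), f j = ∑ p ∈ range n, ∑ i ∈ range m, f (i + m * p) := by
  induction n with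
  | zero => simp
  | succ n ih =>
    rw [Nat.succ_mul, sum_range_add, ih, sum_range_succ]
    congr 1
    refine sum_congr rfl fun i _ => ?_
    congr 1
    ring

lemma opNorm_le {n : ℕ} (A : Matrix (Fin n) (Fin n) ℂ) {μ : ℝ} (hμ : 0 ≤ μ)
    (h : ∀ x : Fin n → ℂ, ∑ j, ‖(A.mulVec x) j‖ ^ 2 ≤ μ ^ 2 * ∑ k, ‖x k‖ ^ 2) : ‖A‖ ≤ μ := by
  rw [Matrix.l2_opNorm_def]
  refine ContinuousLinearMap.opNorm_le_bound _ hμ fun x => ?_
  rw [EuclideanSpace.norm_eq, EuclideanSpace.norm_eq, ← Real.sqrt_sq hμ, ← Real.sqrt_mul (sq_nonneg _)]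
  exact Real.sqrt_le_sqrt (h (WithLp.ofLp x))

/-- dilation of the coefficients -/
def dil (m : ℕ) (a : ℤ → ℂ) (n : ℤ) : ℂ := if (m : ℤ) ∣ n then a (n / m) else 0

lemma toep_dil_le {N m r : ℕ} (hr : r < m) (a : ℤ → ℂ) {μ : ℝ} (hμ : 0 ≤ μ)
    (h : ∀ z : ℕ → ℂ, ∑ p ∈ range (N + 1), ‖∑ q ∈ range (N + 1), a ((p : ℤ) - q) * z q‖ ^ 2 ≤
      μ ^ 2 * ∑ q ∈ range (N + 1), ‖z q‖ ^ 2) :
    ‖toep (m * N + r) (dil m a)‖ ≤ μ := by
  obtain ⟨M, hM⟩ : ∃ M, M = m * N + r := ⟨_, rfl⟩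
  rw [← hM]
  refine opNorm_le _ hμ fun x => ?_
  have hle : M + 1 ≤ (N + 1) * m := by
    rw [hM, Nat.succ_mul, mul_comm N m]
    omega
  have hm : (m : ℤ) ≠ 0 := by
    have : 0 < m := by omega
    exact_mod_cast this.ne'
  let X : ℕ → ℂ := fun j => if hj : j < M + 1 then x ⟨j, hj⟩ else 0
  have hX : ∀ k : Fin (M + 1), X k = x k := fun k => by
    simp only [X, k.2, dif_pos]
  have hX0 : ∀ j, M + 1 ≤ j → X j = 0 := fun j hj => by
    simp only [X, not_lt.2 hj, dif_neg, not_false_eq_true]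
  -- the value of the product
  have hval : ∀ j : ℕ, ∑ k ∈ range (M + 1), dil m a ((j : ℤ) - k) * X k =
      ∑ q ∈ range (N + 1), a (((j / m : ℕ) : ℤ) - q) * X (j % m + m * q) := by
    intro j
    have h1 : ∑ k ∈ range (M + 1), dil m a ((j : ℤ) - k) * X k =
        ∑ k ∈ range ((N + 1) * m), dil m a ((j : ℤ) - k) * X k := by
      refine sum_subset (range_subset_range.2 hle) fun k _ hk => ?_
      rw [mem_range, not_lt] at hk
      rw [hX0 k hk, mul_zero]
    rw [h1, sum_block]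
    refine sum_congr rfl fun q _ => ?_
    have hjm : j % m < m := Nat.mod_lt _ (by omega)
    rw [sum_eq_single (j % m)]
    · congr 1
      unfold dil
      have h2 : (j : ℤ) - ((j % m + m * q : ℕ) : ℤ) = (m : ℤ) * (((j / m : ℕ) : ℤ) - q) := by
        have h3 := Nat.mod_add_div j m
        have h4 : (j : ℤ) = ((j % m : ℕ) : ℤ) + (m : ℤ) * ((j / m : ℕ) : ℤ) := by
          exact_mod_cast h3.symm
        rw [Nat.cast_add, Nat.cast_mul]
        linear_combination h4
      rw [h2, if_pos (dvd_mul_right _ _), Int.mul_ediv_cancel_left _ hm]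
    · intro i hi hne
      rw [mem_range] at hi
      unfold dil
      rw [if_neg, zero_mul]
      intro hdvd
      apply hne
      have h3 := Nat.mod_add_div j m
      have h4 : (j : ℤ) = ((j % m : ℕ) : ℤ) + (m : ℤ) * ((j / m : ℕ) : ℤ) := by
        exact_mod_cast h3.symm
      have h5 : (m : ℤ) ∣ ((j % m : ℕ) : ℤ) - (i : ℤ) := by
        have h6 : ((j % m : ℕ) : ℤ) - (i : ℤ) = ((j : ℤ) - ((i + m * q : ℕ) : ℤ)) -
            (m : ℤ) * (((j / m : ℕ) : ℤ) - q) := by
          rw [Nat.cast_add, Nat.cast_mul]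
          linear_combination -h4
        rw [h6]
        exact dvd_sub hdvd (dvd_mul_right _ _)
      have h7 := Int.eq_zero_of_abs_lt_dvd h5 (by
        rw [abs_lt]
        constructor <;> omega)
      omega
    · intro h0
      exact absurd (mem_range.2 hjm) h0
  have hmv : ∀ j : Fin (M + 1), ((toep M (dil m a)).mulVec x) j =
      ∑ k ∈ range (M + 1), dil m a (((j : ℕ) : ℤ) - k) * X k := by
    intro j
    rw [← Fin.sum_univ_eq_sum_range (fun k => dil m a (((j : ℕ) : ℤ) - k) * X k)]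
    unfold Matrix.mulVec dotProduct toep
    refine sum_congr rfl fun k _ => ?_
    rw [hX]
    rfl
  calc ∑ j, ‖((toep M (dil m a)).mulVec x) j‖ ^ 2
      = ∑ j ∈ range (M + 1), ‖∑ q ∈ range (N + 1), a (((j / m : ℕ) : ℤ) - q) *
          X (j % m + m * q)‖ ^ 2 := by
        rw [← Fin.sum_univ_eq_sum_range (fun j => ‖∑ q ∈ range (N + 1),
          a (((j / m : ℕ) : ℤ) - q) * X (j % m + m * q)‖ ^ 2)]
        exact sum_congr rfl fun j _ => by rw [hmv, hval]
    _ ≤ ∑ j ∈ range ((N + 1) * m), ‖∑ q ∈ range (N + 1), a (((j / m : ℕ) : ℤ) - q) *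
          X (j % m + m * q)‖ ^ 2 :=
        sum_le_sum_of_subset_of_nonneg (range_subset_range.2 hle) fun _ _ _ => sq_nonneg _
    _ = ∑ i ∈ range m, ∑ p ∈ range (N + 1), ‖∑ q ∈ range (N + 1), a ((p : ℤ) - q) *
          X (i + m * q)‖ ^ 2 := by
        rw [sum_block, sum_comm]
        refine sum_congr rfl fun i hi => sum_congr rfl fun p _ => ?_
        rw [mem_range] at hi
        have h1 : (i + m * p) / m = p := by
          rw [Nat.add_mul_div_left _ _ (by omega), Nat.div_eq_of_lt hi, zero_add]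
        have h2 : (i + m * p) % m = i := by
          rw [Nat.add_mul_mod_self_left, Nat.mod_eq_of_lt hi]
        rw [h1, h2]
    _ ≤ ∑ i ∈ range m, μ ^ 2 * ∑ q ∈ range (N + 1), ‖X (i + m * q)‖ ^ 2 :=
        sum_le_sum fun i _ => h fun q => X (i + m * q)
    _ = μ ^ 2 * ∑ k ∈ range ((N + 1) * m), ‖X k‖ ^ 2 := by
        rw [← mul_sum, sum_block, sum_comm]
    _ = μ ^ 2 * ∑ k ∈ range (M + 1), ‖X k‖ ^ 2 := by
        congr 1
        symm
        refine sum_subset (range_subset_range.2 hle) fun k _ hk => ?_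
        rw [mem_range, not_lt] at hk
        rw [hX0 k hk]
        simp
    _ = μ ^ 2 * ∑ k, ‖x k‖ ^ 2 := by
        rw [← Fin.sum_univ_eq_sum_range (fun k => ‖X k‖ ^ 2)]
        congr 1
        exact sum_congr rfl fun k _ => by rw [hX]

lemma norm_entry_le {n : ℕ} (A : Matrix (Fin n) (Fin n) ℂ) (j k : Fin n) : ‖A j k‖ ≤ ‖A‖ := by
  have h := Matrix.l2_opNorm_mulVec A (EuclideanSpace.single k (1 : ℂ))
  rw [PiLp.norm_single, norm_one, mul_one] at h
  refine le_trans ?_ h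
  have h2 := EuclideanSpace.norm_eq ((EuclideanSpace.equiv (Fin n) ℂ).symm
    (A.mulVec (EuclideanSpace.single k (1 : ℂ))))
  rw [h2]
  refine Real.le_sqrt_of_sq_le ?_
  refine le_trans ?_ (single_le_sum (f := fun i => ‖((EuclideanSpace.equiv (Fin n) ℂ).symm
    (A.mulVec (EuclideanSpace.single k (1 : ℂ)))) i‖ ^ 2) (fun i _ => sq_nonneg _) (mem_univ j))
  apply le_of_eq
  congr 2
  simp

end Norm

section Bounded

/-- the trigonometric polynomial with coefficients `a_n`, `|n| ≤ N` -/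
noncomputable def trig (N : ℕ) (a : ℤ → ℂ) (t : AddCircle (2 * π)) : ℂ :=
  ∑ n ∈ Icc (-(N : ℤ)) N, a n * fourier n t

lemma continuous_trig (N : ℕ) (a : ℤ → ℂ) : Continuous (trig N a) :=
  continuous_finsetSum _ fun n _ => continuous_const.mul (fourier n).continuous

lemma norm_trig_le (N : ℕ) (a : ℤ → ℂ) (t : AddCircle (2 * π)) :
    ‖trig N a t‖ ≤ (2 * N + 1) * ‖toep N a‖ := by
  have h1 : ∀ n ∈ Icc (-(N : ℤ)) N, ‖a n * fourier n t‖ ≤ ‖toep N a‖ := by
    intro n hn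
    rw [mem_Icc] at hn
    rw [norm_mul]
    have h2 : ‖fourier n t‖ = 1 := by
      rw [fourier_apply]
      exact Circle.norm_coe _
    rw [h2, mul_one]
    by_cases h0 : 0 ≤ n
    · have h3 := norm_entry_le (toep N a) ⟨n.toNat, by omega⟩ ⟨0, by omega⟩
      have h4 : toep N a ⟨n.toNat, by omega⟩ ⟨0, by omega⟩ = a n := by
        show a (((n.toNat : ℕ) : ℤ) - ((0 : ℕ) : ℤ)) = a n
        congr 1
        omega
      rwa [h4] at h3
    · have h3 := norm_entry_le (toep N a) ⟨0, by omega⟩ ⟨(-n).toNat, by omega⟩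
      have h4 : toep N a ⟨0, by omega⟩ ⟨(-n).toNat, by omega⟩ = a n := by
        show a (((0 : ℕ) : ℤ) - (((-n).toNat : ℕ) : ℤ)) = a n
        congr 1
        omega
      rwa [h4] at h3
  unfold trig
  refine (norm_sum_le _ _).trans ((sum_le_sum h1).trans ?_)
  rw [sum_const, Int.card_Icc, nsmul_eq_mul]
  apply le_of_eq
  congr 1
  have h5 : ((N : ℤ) + 1 - -(N : ℤ)).toNat = 2 * N + 1 := by omega
  rw [h5]
  push_cast
  ring

lemma trig_mem (N : ℕ) (a : ℤ → ℂ) : trig N a ∈ symbols N a := by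
  refine ⟨?_, fun k hk => ?_⟩
  · refine MemLp.of_bound (continuous_trig N a).aestronglyMeasurable ((2 * N + 1) * ‖toep N a‖)
      (Filter.Eventually.of_forall fun t => norm_trig_le N a t)
  · have h1 : trig N a = ∑ n ∈ Icc (-(N : ℤ)) N, fun t => a n * fourier n t := by
      funext t
      rw [Finset.sum_apply]
      rfl
    rw [h1, fourierCoeff.sum]
    · rw [Finset.sum_apply]
      have h2 : ∀ n ∈ Icc (-(N : ℤ)) N,
          fourierCoeff (fun t : AddCircle (2 * π) => a n * fourier n t) k =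
          if n = k then a n else 0 := by
        intro n _
        rw [fourierCoeff.const_mul]
        have h3 : fourierCoeff (fun t : AddCircle (2 * π) => fourier n t) k =
            (Pi.single n (1 : ℂ) : ℤ → ℂ) k := by
          rw [← fourierCoeff_fourier (T := 2 * π) n]
        rw [h3, Pi.single_apply]
        by_cases h : n = k
        · subst h; simp
        · rw [if_neg (Ne.symm h), if_neg h, mul_zero]
      rw [sum_congr rfl h2, sum_ite_eq' (Icc (-(N : ℤ)) N) k, if_pos]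
      rw [mem_Icc]
      exact ⟨(abs_le.1 hk).1, (abs_le.1 hk).2⟩
    · intro n _
      exact (continuous_const.mul (fourier n).continuous).integrable_of_hasCompactSupport
        (HasCompactSupport.of_compactSpace _)

lemma cA_le (N : ℕ) (a : ℤ → ℂ) : cA N a ≤ (2 * N + 1) * ‖toep N a‖ := by
  have h1 : cA N a ≤ supNorm (trig N a) := by
    refine csInf_le ⟨0, ?_⟩ ⟨_, trig_mem N a, rfl⟩
    rintro _ ⟨f, -, rfl⟩
    exact ENNReal.toReal_nonneg
  refine h1.trans ?_
  unfold supNorm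
  have h0 : 0 ≤ (2 * (N : ℝ) + 1) * ‖toep N a‖ := by positivity
  refine ENNReal.toReal_le_of_le_ofReal h0 ?_
  rw [eLpNorm_exponent_top]
  exact eLpNormEssSup_le_of_ae_bound (Filter.Eventually.of_forall fun t => norm_trig_le N a t)

lemma bddAbove (N : ℕ) : BddAbove {r | ∃ a : ℤ → ℂ, (∀ n, a (-n) = starRingEnd ℂ (a n)) ∧
    toep N a ≠ 0 ∧ r = cA N a / ‖toep N a‖} := by
  refine ⟨2 * N + 1, ?_⟩
  rintro _ ⟨a, -, ha, rfl⟩
  have hpos : 0 < ‖toep N a‖ := norm_pos_iff.2 ha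
  rw [div_le_iff₀ hpos]
  exact cA_le N a

end Bounded

section Main

/-- the symmetric coefficients given by `b` -/
def sym (b : ℕ → ℝ) (n : ℤ) : ℂ := (b n.natAbs : ℂ)

lemma dil_mul {m : ℕ} (hm : m ≠ 0) (a : ℤ → ℂ) (n : ℤ) : dil m a (m * n) = a n := by
  unfold dil
  rw [if_pos (dvd_mul_right _ _), Int.mul_ediv_cancel_left _ (by exact_mod_cast hm)]

lemma lt_c {N m r : ℕ} (hr : r < m) {κ b : ℕ → ℝ} {μ : ℝ} (hμ0 : 0 < μ) (hμ : μ < 2 / π)
    (hI : (1 / π) * ∫ θ in (0 : ℝ)..π, |∑ n ∈ range (N + 1), κ n * cos (n * θ)| =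
      ∑ n ∈ range (N + 1), κ n * b n)
    (hpos : 0 < ∑ n ∈ range (N + 1), κ n * b n)
    (hR : ∀ x : ℕ → ℝ, ∑ p ∈ range (N + 1),
      (∑ q ∈ range (N + 1), b ((p : ℤ) - q).natAbs * x q) ^ 2 ≤
        μ ^ 2 * ∑ q ∈ range (N + 1), x q ^ 2) : π / 2 < c (m * N + r) := by
  have hm : m ≠ 0 := by omega
  have hmZ : (m : ℤ) ≠ 0 := by exact_mod_cast hm
  set a' : ℤ → ℂ := dil m (sym b) with ha'
  have hadj : ∀ n, a' (-n) = starRingEnd ℂ (a' n) := by
    intro n
    simp only [ha', dil, dvd_neg]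
    split_ifs with h
    · rw [Int.neg_ediv_of_dvd h]
      unfold sym
      rw [Int.natAbs_neg, Complex.conj_ofReal]
    · rw [map_zero]
  -- the norm
  have hnorm : ‖toep (m * N + r) a'‖ ≤ μ := by
    refine toep_dil_le hr (sym b) hμ0.le fun z => ?_
    have h1 := hR fun q => (z q).re
    have h2 := hR fun q => (z q).im
    have h3 : ∀ p : ℕ, ‖∑ q ∈ range (N + 1), sym b ((p : ℤ) - q) * z q‖ ^ 2 =
        (∑ q ∈ range (N + 1), b ((p : ℤ) - q).natAbs * (z q).re) ^ 2 +
        (∑ q ∈ range (N + 1), b ((p : ℤ) - q).natAbs * (z q).im) ^ 2 := by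
      intro p
      rw [← Complex.normSq_eq_norm_sq, Complex.normSq_apply, Complex.re_sum, Complex.im_sum]
      simp only [sym, Complex.re_ofReal_mul, Complex.im_ofReal_mul]
      ring
    have h4 : ∀ q : ℕ, ‖z q‖ ^ 2 = (z q).re ^ 2 + (z q).im ^ 2 := by
      intro q
      rw [← Complex.normSq_eq_norm_sq, Complex.normSq_apply]
      ring
    simp_rw [h3, h4]
    rw [sum_add_distrib, sum_add_distrib, mul_add]
    exact add_le_add h1 h2
  have hne : toep (m * N + r) a' ≠ 0 := by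
    obtain ⟨n, hn, hn0⟩ := exists_ne_zero_of_sum_ne_zero hpos.ne'
    rw [mem_range] at hn
    intro h
    have hmn : m * n < m * N + r + 1 := by
      have : m * n ≤ m * N := Nat.mul_le_mul_left m (by omega)
      omega
    have h1 : toep (m * N + r) a' ⟨m * n, hmn⟩ ⟨0, by omega⟩ = (b n : ℂ) := by
      show a' (((m * n : ℕ) : ℤ) - ((0 : ℕ) : ℤ)) = b n
      have h2 : ((m * n : ℕ) : ℤ) - ((0 : ℕ) : ℤ) = (m : ℤ) * (n : ℤ) := by push_cast; ring
      rw [h2, ha', dil_mul hm]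
      rfl
    rw [h] at h1
    have h3 : (0 : ℂ) = (b n : ℂ) := h1
    have h4 : b n = 0 := by exact_mod_cast h3.symm
    rw [h4, mul_zero] at hn0
    exact hn0 rfl
  have hpos' : 0 < ‖toep (m * N + r) a'‖ := norm_pos_iff.2 hne
  have hcA : 1 ≤ cA (m * N + r) a' := by
    refine le_csInf ⟨_, _, trig_mem _ _, rfl⟩ ?_
    rintro _ ⟨f, ⟨hf, hcoef⟩, rfl⟩
    refine one_le_supNorm (κ := κ) (N := N) (m := m) hmZ (a := a') (b := b) ?_ hI hpos hf ?_
    · intro n _
      refine ⟨?_, ?_⟩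
      · rw [ha', dil_mul hm]
        rfl
      · rw [ha', ← mul_neg, dil_mul hm]
        unfold sym
        rw [Int.natAbs_neg]
        rfl
    · intro n hn
      rw [mem_range] at hn
      have h1 : (m : ℤ) * n ≤ m * N := mul_le_mul_of_nonneg_left (by omega) (by positivity)
      have h2 : (0 : ℤ) ≤ (m : ℤ) * n := by positivity
      refine ⟨hcoef _ ?_, hcoef _ ?_⟩
      · rw [abs_of_nonneg h2]
        push_cast
        omega
      · rw [abs_neg, abs_of_nonneg h2]
        push_cast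
        omega
  have h1 : cA (m * N + r) a' / ‖toep (m * N + r) a'‖ ≤ c (m * N + r) :=
    le_csSup (bddAbove _) ⟨a', hadj, hne, rfl⟩
  refine lt_of_lt_of_le ?_ h1
  rw [lt_div_iff₀ hpos']
  have h2 : π / 2 * ‖toep (m * N + r) a'‖ ≤ π / 2 * μ :=
    mul_le_mul_of_nonneg_left hnorm (by positivity)
  have h3 : π / 2 * μ < 1 := by
    calc π / 2 * μ < π / 2 * (2 / π) := mul_lt_mul_of_pos_left hμ (by positivity)
      _ = 1 := by field_simp
  linarith

end Main

section Three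

/-- the integral of the absolute value of a function changing sign once, from an antiderivative -/
lemma integral_abs_pos {P S : ℝ → ℝ} {a b : ℝ} (hab : a ≤ b) (hS : Continuous S)
    (hP : ∀ x, HasDerivAt P (S x) x) (h : ∀ x, a ≤ x → x ≤ b → 0 ≤ S x) :
    ∫ x in a..b, |S x| = P b - P a := by
  rw [← intervalIntegral.integral_eq_sub_of_hasDerivAt (fun x _ => hP x)
    (hS.intervalIntegrable _ _)]
  refine intervalIntegral.integral_congr fun x hx => ?_
  rw [Set.uIcc_of_le hab] at hx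
  exact abs_of_nonneg (h x hx.1 hx.2)

lemma integral_abs_neg {P S : ℝ → ℝ} {a b : ℝ} (hab : a ≤ b) (hS : Continuous S)
    (hP : ∀ x, HasDerivAt P (S x) x) (h : ∀ x, a ≤ x → x ≤ b → S x ≤ 0) :
    ∫ x in a..b, |S x| = P a - P b := by
  have h1 := integral_abs_pos (P := fun x => -P x) (S := fun x => -S x) hab hS.neg
    (fun x => (hP x).neg) (fun x h1 h2 => neg_nonneg.2 (h x h1 h2))
  simp only [abs_neg] at h1
  rw [h1]
  ring

/-- coefficients for `N = 3` -/
noncomputable def κ3 (n : ℕ) : ℝ := if n = 1 then -21 / 100 else if n = 3 then 1 / 4 else 0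

/-- the entries for `N = 3` -/
noncomputable def b3 (n : ℕ) : ℝ :=
  if n = 1 then -(6 / 5) / π else if n = 3 then (178 / 125) / π else 0

lemma three_lt {m r : ℕ} (hr : r < m) : π / 2 < c (m * 3 + r) := by
  have hpi := Real.pi_pos
  have hsum : ∑ n ∈ range (3 + 1), κ3 n * b3 n = 76 / 125 / π := by
    simp only [sum_range_succ, range_zero, sum_empty, κ3, b3]
    norm_num
    field_simp
    norm_num
  refine lt_c hr (κ := κ3) (b := b3) (μ := 19 / 10 / π) (by positivity) ?_ ?_ ?_ ?_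
  · rw [div_lt_div_iff_of_pos_right hpi]
    norm_num
  · rw [hsum]
    set δ := arcsin (1 / 5) with hδ
    have hsin : sin δ = 1 / 5 := sin_arcsin (by norm_num) (by norm_num)
    have hδ0 : 0 < δ := arcsin_pos.2 (by norm_num)
    have hδ1 : δ < π / 2 := arcsin_lt_pi_div_two.2 (by norm_num)
    let S : ℝ → ℝ := fun θ => -21 / 100 * cos θ + 1 / 4 * cos (3 * θ)
    let P : ℝ → ℝ := fun θ => -21 / 100 * sin θ + 1 / 12 * sin (3 * θ)
    have hS : Continuous S := by
      simp only [S]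
      fun_prop
    have hP : ∀ x, HasDerivAt P (S x) x := by
      intro x
      have h1 : HasDerivAt (fun θ : ℝ => sin (3 * θ)) (cos (3 * x) * 3) x := by
        have h2 : HasDerivAt (fun θ : ℝ => 3 * θ) 3 x := by
          simpa using (hasDerivAt_id x).const_mul (3 : ℝ)
        exact (hasDerivAt_sin (3 * x)).comp x h2
      exact (((hasDerivAt_sin x).const_mul (-21 / 100 : ℝ)).add
        (h1.const_mul (1 / 12 : ℝ))).congr_deriv (by simp only [S]; ring)
    have hfac : ∀ x, S x = cos x * (1 / 25 - sin x ^ 2) := by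
      intro x
      simp only [S]
      rw [cos_three_mul]
      have := sin_sq_add_cos_sq x
      have h2 : sin x ^ 2 = 1 - cos x ^ 2 := by linarith
      rw [h2]
      ring
    have hSeq : ∀ θ : ℝ, |∑ n ∈ range (3 + 1), κ3 n * cos (n * θ)| = |S θ| := by
      intro θ
      congr 1
      simp only [sum_range_succ, range_zero, sum_empty, κ3, S]
      norm_num
    simp_rw [hSeq]
    have hI : ∀ a b, IntervalIntegrable (fun x => |S x|) volume a b :=
      fun a b => hS.abs.intervalIntegrable a b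
    have h1 : ∫ θ in (0 : ℝ)..δ, |S θ| = P δ - P 0 := by
      refine integral_abs_pos hδ0.le hS hP fun x h0 hx => ?_
      rw [hfac]
      refine mul_nonneg (cos_nonneg_of_mem_Icc ⟨by linarith, by linarith⟩) ?_
      have h2 : sin x ≤ 1 / 5 := by
        rw [← hsin]
        exact sin_le_sin_of_le_of_le_pi_div_two (by linarith) hδ1.le hx
      have h3 : 0 ≤ sin x := sin_nonneg_of_nonneg_of_le_pi h0 (by linarith)
      nlinarith
    have h2 : ∫ θ in δ..(π / 2), |S θ| = P δ - P (π / 2) := by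
      refine integral_abs_neg hδ1.le hS hP fun x h0 hx => ?_
      rw [hfac]
      refine mul_nonpos_of_nonneg_of_nonpos (cos_nonneg_of_mem_Icc ⟨by linarith, hx⟩) ?_
      have h2 : 1 / 5 ≤ sin x := by
        rw [← hsin]
        exact sin_le_sin_of_le_of_le_pi_div_two (by linarith) hx h0
      nlinarith
    have h3 : ∫ θ in (π / 2)..π, |S θ| = ∫ θ in (0 : ℝ)..(π / 2), |S θ| := by
      have h4 : ∫ θ in (0 : ℝ)..(π / 2), |S (π - θ)| = ∫ θ in (π - π / 2)..(π - 0), |S θ| :=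
        intervalIntegral.integral_comp_sub_left (fun θ => |S θ|) π
      have h5 : ∀ θ, |S (π - θ)| = |S θ| := by
        intro θ
        rw [hfac, hfac, cos_pi_sub, sin_pi_sub, neg_mul, abs_neg]
      simp_rw [h5] at h4
      rw [h4]
      congr 1 <;> ring
    have h4 : ∫ θ in (0 : ℝ)..(π / 2), |S θ| = (P δ - P 0) + (P δ - P (π / 2)) := by
      rw [← intervalIntegral.integral_add_adjacent_intervals (hI 0 δ) (hI δ (π / 2)), h1, h2]
    rw [← intervalIntegral.integral_add_adjacent_intervals (hI 0 (π / 2)) (hI (π / 2) π), h3, h4]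
    have hP0 : P 0 = 0 := by simp [P]
    have hPδ : P δ = 2 / 375 := by
      simp only [P]
      rw [sin_three_mul, hsin]
      norm_num
    have hPh : P (π / 2) = -22 / 75 := by
      simp only [P]
      rw [sin_three_mul, sin_pi_div_two]
      norm_num
    rw [hP0, hPδ, hPh]
    field_simp
    norm_num
  · rw [hsum]
    positivity
  · intro x
    simp only [sum_range_succ, range_zero, sum_empty, b3]
    norm_num
    have hinv : (π⁻¹ : ℝ) ^ 2 ≥ 0 := sq_nonneg _
    have key : ∀ x0 x1 x2 x3 : ℝ,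
        (-(6 / 5) * x1 + 178 / 125 * x3) ^ 2 + (-(6 / 5) * x0 + -(6 / 5) * x2) ^ 2 +
        (-(6 / 5) * x1 + -(6 / 5) * x3) ^ 2 + (178 / 125 * x0 + -(6 / 5) * x2) ^ 2 ≤
        (19 / 10) ^ 2 * (x0 ^ 2 + x1 ^ 2 + x2 ^ 2 + x3 ^ 2) := by
      intro x0 x1 x2 x3
      nlinarith [sq_nonneg (x1 + x3 / 4), sq_nonneg (x1 + x3 / 2), sq_nonneg (x2 + x0 / 4),
        sq_nonneg (x2 + x0 / 2), sq_nonneg x0, sq_nonneg x3, sq_nonneg x1, sq_nonneg x2]
    have h1 := mul_le_mul_of_nonneg_left (key (x 0) (x 1) (x 2) (x 3)) hinv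
    refine le_trans (le_of_eq ?_) (h1.trans (le_of_eq ?_)) <;> ring

end Three

section Two

/-- the angle with sine `2/5` -/
noncomputable def γ : ℝ := arcsin (2 / 5)

lemma sin_γ : sin γ = 2 / 5 := sin_arcsin (by norm_num) (by norm_num)

lemma γ_pos : 0 < γ := arcsin_pos.2 (by norm_num)

lemma sin_pi_div_five_sq : sin (π / 5) ^ 2 = (5 - √5) / 8 := by
  have h1 := sin_sq_add_cos_sq (π / 5)
  rw [cos_pi_div_five] at h1
  have h2 : √5 ^ 2 = 5 := Real.sq_sqrt (by norm_num)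
  nlinarith

lemma sqrt5_bounds : 2.236 < √5 ∧ √5 < 2.2361 := by
  constructor
  · exact Real.lt_sqrt_of_sq_lt (by norm_num)
  · rw [Real.sqrt_lt' (by norm_num)]
    norm_num

lemma γ_lt : γ < π / 5 := by
  have hpi := Real.pi_pos
  have h1 : sin γ < sin (π / 5) := by
    rw [sin_γ]
    have h2 := sin_pi_div_five_sq
    have h3 : 0 < sin (π / 5) := sin_pos_of_pos_of_lt_pi (by positivity) (by linarith)
    have h4 := sqrt5_bounds.2
    nlinarith
  by_contra h
  rw [not_lt] at h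
  have h2 : sin (π / 5) ≤ sin γ :=
    sin_le_sin_of_le_of_le_pi_div_two (by linarith) (arcsin_le_pi_div_two _) h
  linarith

/-- the sign changes -/
noncomputable def θ₁ : ℝ := π / 5 + γ

/-- the sign changes -/
noncomputable def θ₂ : ℝ := 4 * π / 5 + γ

lemma sin_sub : sin θ₁ - sin θ₂ = (1 + √5) / 5 := by
  have h1 : sin θ₂ = sin (π / 5 - γ) := by
    rw [← sin_pi_sub]
    congr 1
    unfold θ₂
    ring
  rw [h1, θ₁, sin_add, Real.sin_sub, cos_pi_div_five, sin_γ]
  ring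

/-- the number `sin (2π/5)` -/
noncomputable def s₀ : ℝ := sin (2 * (π / 5))

lemma s₀_sq : s₀ ^ 2 = (5 + √5) / 8 := by
  unfold s₀
  rw [sin_two_mul, mul_pow, mul_pow, sin_pi_div_five_sq, cos_pi_div_five]
  have h2 : √5 ^ 2 = 5 := Real.sq_sqrt (by norm_num)
  have h3 : √5 ^ 3 = 5 * √5 := by rw [pow_succ, h2]
  ring_nf
  rw [h3, h2]
  ring

lemma s₀_pos : 0 < s₀ := by
  have hpi := Real.pi_pos
  exact sin_pos_of_pos_of_lt_pi (by positivity) (by linarith)

lemma s₀_bounds : 0.951 < s₀ ∧ s₀ < 0.9511 := by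
  have h1 := s₀_sq
  have h2 := s₀_pos
  obtain ⟨h3, h4⟩ := sqrt5_bounds
  constructor
  · by_contra h
    rw [not_lt] at h
    nlinarith
  · by_contra h
    rw [not_lt] at h
    nlinarith

lemma sin_two_sub : sin (2 * θ₁) - sin (2 * θ₂) = 34 / 25 * s₀ := by
  have h1 : sin (2 * θ₂) = - sin (2 * (π / 5) - 2 * γ) := by
    have h2 : 2 * θ₂ = 2 * π - (2 * (π / 5) - 2 * γ) := by
      unfold θ₂
      ring
    rw [h2, sin_two_pi_sub]
  have h2 : 2 * θ₁ = 2 * (π / 5) + 2 * γ := by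
    unfold θ₁
    ring
  rw [h1, h2, sin_add, Real.sin_sub, cos_two_mul γ, ← s₀]
  have h3 : cos γ ^ 2 = 21 / 25 := by
    have := sin_sq_add_cos_sq γ
    rw [sin_γ] at this
    linarith
  rw [h3]
  ring

/-- coefficients for `N = 2` -/
noncomputable def κ2 (n : ℕ) : ℝ :=
  if n = 0 then 1 / 2 + cos θ₁ * cos θ₂ else if n = 1 then -(cos θ₁ + cos θ₂) else
    if n = 2 then 1 / 2 else 0

/-- the entries for `N = 2` -/
noncomputable def b2 (n : ℕ) : ℝ :=
  if n = 0 then -1 / 5 else if n = 1 then 2 * (1 + √5) / 5 / π else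
    if n = 2 then 34 / 25 * s₀ / π else 0

lemma key_ineq {d u w : ℝ} (hd1 : -0.62832 < d) (hd2 : d < -0.6283) (hu1 : 1.2944 ≤ u)
    (hu2 : u ≤ 1.29445) (hw1 : 1.2933 ≤ w) (hw2 : w ≤ 1.2935) (x0 x1 x2 : ℝ) :
    (d * x0 + u * x1 + w * x2) ^ 2 + (u * x0 + d * x1 + u * x2) ^ 2 +
      (w * x0 + u * x1 + d * x2) ^ 2 ≤ (99 / 50) ^ 2 * (x0 ^ 2 + x1 ^ 2 + x2 ^ 2) := by
  have k0 : u ^ 2 ≤ 1.29445 ^ 2 := pow_le_pow_left₀ (by linarith) hu2 2
  have k0' : d ^ 2 ≤ 0.62832 ^ 2 := by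
    rw [← neg_sq]
    exact pow_le_pow_left₀ (by linarith) (by linarith) 2
  have k1 : (d - w) ^ 2 ≤ 1.92182 ^ 2 := by
    rw [← neg_sq]
    exact pow_le_pow_left₀ (by linarith) (by linarith) 2
  have k2' : (d + w) ^ 2 ≤ 0.6652 ^ 2 := pow_le_pow_left₀ (by linarith) (by linarith) 2
  have k2 : (d + w) ^ 2 / 2 + u ^ 2 ≤ 1.9 := by norm_num at *; linarith
  have k3 : 2 * u ^ 2 + d ^ 2 ≤ 3.75 := by norm_num at *; linarith
  have k4' : 0 ≤ 2 * d + w := by linarith
  have k4 : 0 ≤ 2 * u * (2 * d + w) := mul_nonneg (by linarith) k4'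
  have k5 : 2 * u * (2 * d + w) ≤ 0.1 := by
    calc 2 * u * (2 * d + w) ≤ 2.5889 * 0.0369 :=
          mul_le_mul (by linarith) (by linarith) k4' (by norm_num)
      _ ≤ 0.1 := by norm_num
  have e : (99 / 50) ^ 2 * (x0 ^ 2 + x1 ^ 2 + x2 ^ 2) -
      ((d * x0 + u * x1 + w * x2) ^ 2 + (u * x0 + d * x1 + u * x2) ^ 2 +
      (w * x0 + u * x1 + d * x2) ^ 2) =
      ((99 / 50) ^ 2 - (d - w) ^ 2) * ((x0 - x2) ^ 2 / 2) +
      (((99 / 50) ^ 2 / 2 - ((d + w) ^ 2 / 2 + u ^ 2)) * (x0 + x2) ^ 2 +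
      ((99 / 50) ^ 2 - (2 * u ^ 2 + d ^ 2)) * x1 ^ 2 -
      2 * u * (2 * d + w) * ((x0 + x2) * x1)) := by ring
  have t1 : 0 ≤ ((99 / 50) ^ 2 - (d - w) ^ 2) * ((x0 - x2) ^ 2 / 2) :=
    mul_nonneg (by norm_num at *; linarith) (by positivity)
  have t2 : 0.06 * (x0 + x2) ^ 2 ≤
      ((99 / 50) ^ 2 / 2 - ((d + w) ^ 2 / 2 + u ^ 2)) * (x0 + x2) ^ 2 :=
    mul_le_mul_of_nonneg_right (by norm_num at *; linarith) (sq_nonneg _)
  have t3 : 0.17 * x1 ^ 2 ≤ ((99 / 50) ^ 2 - (2 * u ^ 2 + d ^ 2)) * x1 ^ 2 :=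
    mul_le_mul_of_nonneg_right (by norm_num at *; linarith) (sq_nonneg _)
  have t4 : 2 * u * (2 * d + w) * ((x0 + x2) * x1) ≤ 0.1 * |(x0 + x2) * x1| := by
    calc 2 * u * (2 * d + w) * ((x0 + x2) * x1)
        ≤ 2 * u * (2 * d + w) * |(x0 + x2) * x1| :=
          mul_le_mul_of_nonneg_left (le_abs_self _) k4
      _ ≤ 0.1 * |(x0 + x2) * x1| := mul_le_mul_of_nonneg_right k5 (abs_nonneg _)
  have t5 : 0.1 * |(x0 + x2) * x1| ≤ 0.05 * (x0 + x2) ^ 2 + 0.05 * x1 ^ 2 := by
    have t6 := sq_nonneg (|x0 + x2| - |x1|)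
    have t7 := sq_abs (x0 + x2)
    have t8 := sq_abs x1
    rw [abs_mul]
    rw [sub_sq, t7, t8] at t6
    linarith
  have t9 := sq_nonneg (x0 + x2)
  have t10 := sq_nonneg x1
  linarith

lemma two_lt {m r : ℕ} (hr : r < m) : π / 2 < c (m * 2 + r) := by
  have hpi := Real.pi_pos
  have hγ0 := γ_pos
  have hγ1 := γ_lt
  have h01 : 0 < θ₁ := by unfold θ₁; positivity
  have h12 : θ₁ < θ₂ := by unfold θ₁ θ₂; linarith
  have h2π : θ₂ < π := by unfold θ₂; linarith
  let S : ℝ → ℝ := fun θ => κ2 0 + κ2 1 * cos θ + κ2 2 * cos (2 * θ)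
  let P : ℝ → ℝ := fun θ => κ2 0 * θ + κ2 1 * sin θ + 1 / 4 * sin (2 * θ)
  have hS : Continuous S := by
    simp only [S]
    fun_prop
  have hk0 : κ2 0 = 1 / 2 + cos θ₁ * cos θ₂ := by simp [κ2]
  have hk1 : κ2 1 = -(cos θ₁ + cos θ₂) := by simp [κ2]
  have hk2 : κ2 2 = 1 / 2 := by simp [κ2]
  have hP : ∀ x, HasDerivAt P (S x) x := by
    intro x
    have h1 : HasDerivAt (fun θ : ℝ => sin (2 * θ)) (cos (2 * x) * 2) x := by
      have h2 : HasDerivAt (fun θ : ℝ => 2 * θ) 2 x := by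
        simpa using (hasDerivAt_id x).const_mul (2 : ℝ)
      exact (hasDerivAt_sin (2 * x)).comp x h2
    exact ((((hasDerivAt_id x).const_mul (κ2 0)).add ((hasDerivAt_sin x).const_mul (κ2 1))).add
      (h1.const_mul (1 / 4 : ℝ))).congr_deriv (by simp only [S, hk2]; ring)
  have hfac : ∀ x, S x = (cos x - cos θ₁) * (cos x - cos θ₂) := by
    intro x
    simp only [S]
    rw [hk0, hk1, hk2, cos_two_mul]
    ring
  have hSeq : ∀ θ : ℝ, |∑ n ∈ range (2 + 1), κ2 n * cos (n * θ)| = |S θ| := by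
    intro θ
    congr 1
    simp only [sum_range_succ, range_zero, sum_empty, S]
    simp
  have hI : ∀ a b, IntervalIntegrable (fun x => |S x|) volume a b :=
    fun a b => hS.abs.intervalIntegrable a b
  have hcos : ∀ x y, 0 ≤ x → x ≤ y → y ≤ π → cos y ≤ cos x := fun x y h0 hxy hy =>
    cos_le_cos_of_nonneg_of_le_pi h0 hy hxy
  have h1 : ∫ θ in (0 : ℝ)..θ₁, |S θ| = P θ₁ - P 0 := by
    refine integral_abs_pos h01.le hS hP fun x h0 hx => ?_
    rw [hfac]
    refine mul_nonneg (sub_nonneg.2 (hcos _ _ h0 hx (by linarith)))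
      (sub_nonneg.2 (hcos _ _ h0 (by linarith) h2π.le))
  have h2 : ∫ θ in θ₁..θ₂, |S θ| = P θ₁ - P θ₂ := by
    refine integral_abs_neg h12.le hS hP fun x h0 hx => ?_
    rw [hfac]
    exact mul_nonpos_of_nonpos_of_nonneg
      (sub_nonpos.2 (hcos _ _ h01.le h0 (by linarith)))
      (sub_nonneg.2 (hcos _ _ (by linarith) hx h2π.le))
  have h3 : ∫ θ in θ₂..π, |S θ| = P π - P θ₂ := by
    refine integral_abs_pos h2π.le hS hP fun x h0 hx => ?_
    rw [hfac]
    exact mul_nonneg_of_nonpos_of_nonpos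
      (sub_nonpos.2 (hcos _ _ h01.le (by linarith) hx))
      (sub_nonpos.2 (hcos _ _ (by linarith) h0 hx))
  have h4 : ∫ θ in (0 : ℝ)..π, |S θ| = 2 * P θ₁ - 2 * P θ₂ + P π := by
    rw [← intervalIntegral.integral_add_adjacent_intervals (hI 0 θ₂) (hI θ₂ π),
      ← intervalIntegral.integral_add_adjacent_intervals (hI 0 θ₁) (hI θ₁ θ₂), h1, h2, h3]
    have : P 0 = 0 := by simp [P]
    rw [this]
    ring
  have hb0 : b2 0 = -1 / 5 := by simp [b2]
  have hb1 : b2 1 = 2 * (1 + √5) / 5 / π := by simp [b2]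
  have hb2 : b2 2 = 34 / 25 * s₀ / π := by simp [b2]
  have h5 : (1 / π) * ∫ θ in (0 : ℝ)..π, |S θ| = ∑ n ∈ range (2 + 1), κ2 n * b2 n := by
    rw [h4]
    simp only [sum_range_succ, range_zero, sum_empty, hb0, hb1, hb2, P, sin_two_pi, sin_pi]
    have e1 := sin_sub
    have e2 := sin_two_sub
    have e3 : θ₁ - θ₂ = -(3 * π / 5) := by unfold θ₁ θ₂; ring
    have e4 : sin θ₁ = sin θ₂ + (1 + √5) / 5 := by linarith
    have e5 : sin (2 * θ₁) = sin (2 * θ₂) + 34 / 25 * s₀ := by linarith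
    have e6 : θ₁ = θ₂ - 3 * π / 5 := by linarith
    rw [hk2, e4, e5]
    have e7 : κ2 0 * θ₁ = κ2 0 * θ₂ - κ2 0 * (3 * π / 5) := by rw [e6]; ring
    rw [e7]
    field_simp
    ring
  have hpos : 0 < ∑ n ∈ range (2 + 1), κ2 n * b2 n := by
    rw [← h5]
    refine mul_pos (by positivity) ?_
    refine intervalIntegral.integral_pos hpi hS.abs.continuousOn (fun x _ => abs_nonneg _)
      ⟨0, ⟨le_rfl, hpi.le⟩, ?_⟩
    rw [abs_pos, hfac]
    have c1 : cos θ₁ < cos 0 := cos_lt_cos_of_nonneg_of_le_pi le_rfl (by linarith) h01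
    have c2 : cos θ₂ < cos 0 := cos_lt_cos_of_nonneg_of_le_pi le_rfl h2π.le (by linarith)
    exact mul_ne_zero (by linarith) (by linarith)
  refine lt_c hr (κ := κ2) (b := b2) (μ := 99 / 50 / π) (by positivity) ?_ ?_ hpos ?_
  · rw [div_lt_div_iff_of_pos_right hpi]
    norm_num
  · simp_rw [hSeq]
    exact h5
  · intro x
    obtain ⟨q1, q2⟩ := sqrt5_bounds
    obtain ⟨q3, q4⟩ := s₀_bounds
    have q5 := Real.pi_gt_d4
    have q6 := Real.pi_lt_d4
    obtain ⟨d, hd⟩ : ∃ d, d = -π / 5 := ⟨_, rfl⟩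
    obtain ⟨u, hu⟩ : ∃ u, u = 2 * (1 + √5) / 5 := ⟨_, rfl⟩
    obtain ⟨w, hw⟩ : ∃ w, w = 34 / 25 * s₀ := ⟨_, rfl⟩
    have key := key_ineq (d := d) (u := u) (w := w) (by rw [hd]; linarith) (by rw [hd]; linarith)
      (by rw [hu]; linarith) (by rw [hu]; linarith) (by rw [hw]; linarith) (by rw [hw]; linarith)
    have h1 := mul_le_mul_of_nonneg_left (key (x 0) (x 1) (x 2)) (sq_nonneg (π⁻¹ : ℝ))
    have hb0' : b2 0 = d * π⁻¹ := by
      rw [hb0, hd]
      field_simp
    have hb1' : b2 1 = u * π⁻¹ := by rw [hb1, hu, div_eq_mul_inv _ π]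
    have hb2' : b2 2 = w * π⁻¹ := by rw [hb2, hw, div_eq_mul_inv _ π]
    simp only [sum_range_succ, range_zero, sum_empty]
    norm_num
    rw [hb0', hb1', hb2']
    refine le_trans (le_of_eq ?_) (h1.trans (le_of_eq ?_)) <;> ring

end Two

/-- The mini-max ratio satisfies `c_N > π/2` for every `N ≥ 2`. -/
theorem result (N : ℕ) (hN : 2 ≤ N) : c N > π / 2 := by
  by_cases h3 : N = 3
  · subst h3
    exact three_lt (m := 1) (r := 0) one_pos
  · have h : N = N / 2 * 2 + N % 2 := (Nat.div_add_mod' N 2).symm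
    rw [h]
    exact two_lt (by omega)

end Pool.Agent.Results.MP_becf51_an.MiniMaxRatio
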